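import Pool.Agent.H65.CM4.Targets1

/-!
# Part A, row H1: the sum of the weights of the blocks, the line of `(1, 0)`
-/

set_option autoImplicit false

open MeasureTheory Set Filter NumberField NumberField.InfinitePlace Pool.Agent.H65.CM4
open scoped Real

namespace Pool.Agent.H11.CM4

theorem sum_two (L : Finset ℕ) (X : ℝ) (hX : 0 ≤ X) (h : ∀ l ∈ L, (2 : ℝ) ^ l ≤ X) :
    ∑ l ∈ L, (2 : ℝ) ^ l ≤ 2 * X := by
  rcases L.eq_empty_or_nonempty with rfl | hne
  · simpa using hX
  · have h1 : L ⊆ Finset.range (L.max' hne + 1) := fun l hl =>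
      Finset.mem_range.2 (Nat.lt_succ_of_le (L.le_max' l hl))
    have h2 : ∑ l ∈ Finset.range (L.max' hne + 1), (2 : ℝ) ^ l ≤ 2 ^ (L.max' hne + 1) := by
      rw [geom_sum_eq (by norm_num)]
      have : (0 : ℝ) < 2 ^ (L.max' hne + 1) := by positivity
      linarith
    have h3 := h _ (L.max'_mem hne)
    calc ∑ l ∈ L, (2 : ℝ) ^ l ≤ ∑ l ∈ Finset.range (L.max' hne + 1), (2 : ℝ) ^ l :=
          Finset.sum_le_sum_of_subset_of_nonneg h1 fun _ _ _ => by positivity
      _ ≤ 2 ^ (L.max' hne + 1) := h2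
      _ = 2 * 2 ^ (L.max' hne) := by rw [pow_succ]; ring
      _ ≤ 2 * X := by linarith

theorem card_two (L : Finset ℕ) (A : ℝ) (hA : 1 ≤ A) (h : ∀ l ∈ L, (2 : ℝ) ^ l ≤ A) :
    (L.card : ℝ) ≤ 2 * (1 + Real.log A) := by
  have hl : 0 ≤ Real.log A := Real.log_nonneg hA
  rcases L.eq_empty_or_nonempty with rfl | hne
  · simp only [Finset.card_empty, Nat.cast_zero]
    positivity
  · have h1 : L ⊆ Finset.range (L.max' hne + 1) := fun l hl =>
      Finset.mem_range.2 (Nat.lt_succ_of_le (L.le_max' l hl))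
    have h2 := Finset.card_le_card h1
    rw [Finset.card_range] at h2
    have h3 := h _ (L.max'_mem hne)
    have h4 : (L.max' hne : ℝ) * Real.log 2 ≤ Real.log A := by
      rw [← Real.log_pow]
      exact Real.log_le_log (by positivity) h3
    have h5 := Real.log_two_gt_d9
    have h6 : (L.max' hne : ℝ) * (1 / 2) ≤ (L.max' hne : ℝ) * Real.log 2 :=
      mul_le_mul_of_nonneg_left (by linarith) (Nat.cast_nonneg _)
    have h7 : (L.card : ℝ) ≤ (L.max' hne : ℝ) + 1 := by exact_mod_cast h2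
    linarith

variable (k : Type) [Field k] [NumberField k] [IsTotallyReal k]

theorem pf_H1 (hW10 : T_W10 k) (hIDC : T_IDC k) : T_H1 k := by
  classical
  intro R C₁ hC₁
  obtain ⟨hId, -, C, hC, hcount⟩ := hIDC
  refine ⟨4 * C * C₁ + 2 * C, by positivity, ?_⟩
  intro r A η T hr hA hη hT
  have hlA : 0 ≤ Real.log A := Real.log_nonneg hA
  have hr0 : 0 < r := by linarith
  have hrn : 1 ≤ r ^ dg k := one_le_pow₀ hr
  have hRHS : 0 ≤ (4 * C * C₁ + 2 * C) * r ^ dg k * (1 + η * A) * (1 + Real.log A) ^ 3 := by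
    positivity
  rcases T.eq_empty_or_nonempty with rfl | ⟨a₀, ha₀⟩
  · simpa using hRHS
  set w := a₀.1 with hw'
  obtain ⟨hw1, hw2, -⟩ := hT a₀ ha₀
  obtain ⟨huniq, hlow, -⟩ := hW10 R r w hr0 hw1 hw2
  have hTw : ∀ a ∈ T, a.1 = w := fun a ha => huniq a.1 (hT a ha).1 (hT a ha).2.1
  have hnn : 0 < nn r w := lt_of_lt_of_le (by positivity) hlow
  have hinv : 1 / nn r w ≤ r ^ dg k := by
    rw [div_le_iff₀ hnn]
    rw [div_le_iff₀ (by positivity)] at hlow
    linarith
  have hnm : ∀ I : Ideal (𝓞 k), I ≠ ⊥ → 1 ≤ nm I := by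
    intro I hI
    have h1 : Ideal.absNorm I ≠ 0 := by
      rw [Ne, Ideal.absNorm_eq_zero_iff]
      exact hI
    have h2 : 1 ≤ Ideal.absNorm I := Nat.one_le_iff_ne_zero.2 h1
    unfold nm
    exact_mod_cast h2
  have hsplit : ∀ a ∈ T, hw r η a ≤ 1 / 2 ^ a.2.2 + η * r ^ dg k * 2 ^ a.2.2 := by
    intro a ha
    unfold hw
    rw [hTw a ha]
    have h1 : (1 + η * 4 ^ a.2.2 / nn r w) / 2 ^ a.2.2 =
        1 / 2 ^ a.2.2 + η * (1 / nn r w) * 2 ^ a.2.2 := by
      have h2 : (4 : ℝ) ^ a.2.2 = 2 ^ a.2.2 * 2 ^ a.2.2 := by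
        rw [← mul_pow]
        norm_num
      rw [h2]
      field_simp
    rw [h1]
    have h3 : η * (1 / nn r w) * 2 ^ a.2.2 ≤ η * r ^ dg k * 2 ^ a.2.2 :=
      mul_le_mul_of_nonneg_right (mul_le_mul_of_nonneg_left hinv hη) (by positivity)
    linarith
  have h2A : ∀ a ∈ T, (2 : ℝ) ^ a.2.2 ≤ A := by
    intro a ha
    obtain ⟨-, -, h1, -, h3⟩ := hT a ha
    have h4 := hnm _ h1
    have h5 : (1 : ℝ) * 2 ^ a.2.2 ≤ nm a.2.1 * 2 ^ a.2.2 :=
      mul_le_mul_of_nonneg_right h4 (by positivity)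
    linarith
  -- the first sum
  have hfirst : ∑ a ∈ T, (1 : ℝ) / 2 ^ a.2.2 ≤ 2 * (1 + Real.log A) * (2 * C * C₁ * r ^ dg k) := by
    rw [← Finset.sum_fiberwise_of_maps_to (t := T.image fun a => a.2.2)
      (fun a ha => Finset.mem_image_of_mem (fun a => a.2.2) ha)]
    have h1 : ∀ l ∈ T.image (fun a => a.2.2),
        ∑ a ∈ T with a.2.2 = l, (1 : ℝ) / 2 ^ a.2.2 ≤ 2 * C * C₁ * r ^ dg k := by
      intro l _
      have h2 : ∑ a ∈ T with a.2.2 = l, (1 : ℝ) / 2 ^ a.2.2 =
          ((T.filter fun a => a.2.2 = l).card : ℝ) * (1 / 2 ^ l) := by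
        rw [← nsmul_eq_mul, ← Finset.sum_const]
        refine Finset.sum_congr rfl fun a ha => ?_
        rw [(Finset.mem_filter.1 ha).2]
      set B : ℝ := 2 * C₁ * 2 ^ l * r ^ dg k with hB
      have hB1 : 1 ≤ B := by
        have e1 : (1 : ℝ) ≤ 2 ^ l := one_le_pow₀ (by norm_num)
        have e2 : (1 : ℝ) ≤ 2 * C₁ := by linarith
        have e3 : (1 : ℝ) ≤ 2 * C₁ * 2 ^ l := one_le_mul_of_one_le_of_one_le e2 e1
        exact one_le_mul_of_one_le_of_one_le e3 hrn
      have h3 : (T.filter fun a => a.2.2 = l).card ≤ (Id k B).card := by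
        refine Finset.card_le_card_of_injOn (fun a => a.2.1) ?_ ?_
        · intro a ha
          have ha' := Finset.mem_filter.1 (Finset.mem_coe.1 ha)
          obtain ⟨-, -, e1, e2, -⟩ := hT a ha'.1
          rw [hTw a ha'.1, ha'.2] at e2
          refine Finset.mem_coe.2 ((hId B a.2.1).2 ⟨e1, ?_⟩)
          have e3 : nm a.2.1 ≤ 2 * C₁ * 2 ^ l * (1 / nn r w) := by
            rw [mul_one_div, le_div_iff₀ hnn]
            exact e2
          exact e3.trans (mul_le_mul_of_nonneg_left hinv (by positivity))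
        · intro a ha b hb hab
          have ha' := Finset.mem_filter.1 (Finset.mem_coe.1 ha)
          have hb' := Finset.mem_filter.1 (Finset.mem_coe.1 hb)
          have e1 : a.1 = b.1 := (hTw a ha'.1).trans (hTw b hb'.1).symm
          have e2 : a.2.2 = b.2.2 := ha'.2.trans hb'.2.symm
          exact Prod.ext e1 (Prod.ext hab e2)
      have h4 := (hcount B hB1).1
      have h5 : ((T.filter fun a => a.2.2 = l).card : ℝ) ≤ C * B := by
        have : ((T.filter fun a => a.2.2 = l).card : ℝ) ≤ ((Id k B).card : ℝ) := by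
          exact_mod_cast h3
        linarith
      rw [h2]
      calc ((T.filter fun a => a.2.2 = l).card : ℝ) * (1 / 2 ^ l) ≤ C * B * (1 / 2 ^ l) :=
            mul_le_mul_of_nonneg_right h5 (by positivity)
        _ = 2 * C * C₁ * r ^ dg k := by
            rw [hB]
            field_simp
    have h6 := Finset.sum_le_sum h1
    rw [Finset.sum_const, nsmul_eq_mul] at h6
    refine h6.trans (mul_le_mul_of_nonneg_right ?_ (by positivity))
    refine card_two _ A hA fun l hl => ?_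
    obtain ⟨a, ha, rfl⟩ := Finset.mem_image.1 hl
    exact h2A a ha
  -- the second sum
  have hsecond : ∑ a ∈ T, (2 : ℝ) ^ a.2.2 ≤ 2 * A * (C * (1 + Real.log A)) := by
    have hmaps : ∀ a ∈ T, a.2.1 ∈ Id k A := by
      intro a ha
      obtain ⟨-, -, e1, -, e3⟩ := hT a ha
      refine (hId A a.2.1).2 ⟨e1, ?_⟩
      have e4 : (1 : ℝ) ≤ 2 ^ a.2.2 := one_le_pow₀ (by norm_num)
      have e5 := hnm _ e1
      nlinarith
    rw [← Finset.sum_fiberwise_of_maps_to hmaps]
    have h1 : ∀ f ∈ Id k A, ∑ a ∈ T with a.2.1 = f, (2 : ℝ) ^ a.2.2 ≤ 2 * A * (1 / nm f) := by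
      intro f hf
      have hf0 := ((hId A f).1 hf).1
      have hfp : 0 < nm f := lt_of_lt_of_le one_pos (hnm f hf0)
      have h2 : ∑ a ∈ T with a.2.1 = f, (2 : ℝ) ^ a.2.2 =
          ∑ l ∈ (T.filter fun a => a.2.1 = f).image (fun a => a.2.2), (2 : ℝ) ^ l := by
        rw [Finset.sum_image]
        intro a ha b hb hab
        have ha' := Finset.mem_filter.1 (Finset.mem_coe.1 ha)
        have hb' := Finset.mem_filter.1 (Finset.mem_coe.1 hb)
        have e1 : a.1 = b.1 := (hTw a ha'.1).trans (hTw b hb'.1).symm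
        have e2 : a.2.1 = b.2.1 := ha'.2.trans hb'.2.symm
        exact Prod.ext e1 (Prod.ext e2 hab)
      rw [h2]
      have h3 := sum_two ((T.filter fun a => a.2.1 = f).image (fun a => a.2.2)) (A / nm f)
        (by positivity) (by
          intro l hl
          obtain ⟨a, ha, rfl⟩ := Finset.mem_image.1 hl
          have ha' := Finset.mem_filter.1 ha
          have e3 := (hT a ha'.1).2.2.2.2
          rw [ha'.2] at e3
          rw [le_div_iff₀ hfp]
          linarith)
      refine h3.trans (le_of_eq ?_)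
      ring
    refine (Finset.sum_le_sum h1).trans ?_
    rw [← Finset.mul_sum]
    exact mul_le_mul_of_nonneg_left (hcount A hA).2 (by positivity)
  have hsum : ∑ a ∈ T, hw r η a ≤ 2 * (1 + Real.log A) * (2 * C * C₁ * r ^ dg k) +
      η * r ^ dg k * (2 * A * (C * (1 + Real.log A))) := by
    refine (Finset.sum_le_sum hsplit).trans ?_
    rw [Finset.sum_add_distrib, ← Finset.mul_sum]
    exact add_le_add hfirst (mul_le_mul_of_nonneg_left hsecond (by positivity))
  refine hsum.trans ?_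
  set G := 1 + Real.log A with hG
  have hG1 : 1 ≤ G := by linarith
  have hG3 : G ≤ G ^ 3 := by
    have : 1 ≤ G ^ 2 := one_le_pow₀ hG1
    nlinarith
  have e1 : 2 * G * (2 * C * C₁ * r ^ dg k) + η * r ^ dg k * (2 * A * (C * G)) =
      (4 * C * C₁ + 2 * C * (η * A)) * r ^ dg k * G := by ring
  have e2 : 4 * C * C₁ + 2 * C * (η * A) ≤ (4 * C * C₁ + 2 * C) * (1 + η * A) := by
    have e3 : 0 ≤ C * C₁ * (η * A) := by positivity
    have e4 : 0 ≤ C := by linarith
    nlinarith
  rw [e1]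
  calc (4 * C * C₁ + 2 * C * (η * A)) * r ^ dg k * G
      ≤ (4 * C * C₁ + 2 * C) * (1 + η * A) * r ^ dg k * G ^ 3 := by
        refine mul_le_mul (mul_le_mul_of_nonneg_right e2 (by positivity)) hG3 (by linarith)
          (by positivity)
    _ = _ := by ring

end Pool.Agent.H11.CM4
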